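import Pool.Agent.H51.MF.Base

/-! # BRK: the final theorem on bricks -/

set_option linter.style.haveILetI false
set_option linter.unusedSectionVars false
set_option autoImplicit false

namespace Pool.Agent.H51.MF

open Module Pool.Agent.H51.T2

universe u v

variable {K : Type v} [Field K] {A : Type u} [Ring A] [Algebra K A]

theorem BRK_descend (hDICH : S_DICH K A) (hLIN1 : S_LIN1) (hK : Infinite K)
    (hA : FiniteDimensional K A) (hR : HR K A) (c : Coo K A) (M : FM K A) (hM : Brick A M) :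
    ∀ (r : ℕ) (f₀ : TC K A), rk (WV c f₀) ≤ r → Rigid f₀.f → InW f₀ M →
      ∃ f₁ : TC K A, Rigid f₁.f ∧ InW f₁ M ∧ rk (WV c f₁) ≤ 1 := by
  intro r
  induction r with
  | zero =>
    intro f₀ h1 h2 h3
    exact ⟨f₀, h2, h3, by omega⟩
  | succ r ih =>
    intro f₀ h1 h2 h3
    by_cases h4 : rk (WV c f₀) ≤ 1
    · exact ⟨f₀, h2, h3, h4⟩
    · obtain ⟨g, η, hg, hη, hgM⟩ := hDICH hK hA hR c f₀ M h2 h3 hM (by omega)
      have h5 : rk (WV c (f₀.add g)) < rk (WV c f₀) := by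
        refine hLIN1 c.n (WV c f₀) (WV c (f₀.add g)) η ?_ hη
        rintro w ⟨X, hX, rfl⟩
        have h6 := inW_addTC.1 hX
        refine ⟨Or.inl ⟨X, h6.1, rfl⟩, ?_⟩
        rw [← hg.cl X h6.1]
        exact inW_cl (g := g) ⟨h6.2.1, h6.2.2⟩
      exact ih (f₀.add g) (by omega) (rigid_addTC h2 hg.rig hg.comp) hgM

/-- A brick in a wide subcategory of rank at most one is a simple object. -/
theorem BRK_simple (hONE : S_ONE K A) (hSIM : S_SIM K A) (hK : Infinite K)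
    (hA : FiniteDimensional K A) (hR : HR K A) (c : Coo K A) (f₁ : TC K A) (h1 : Rigid f₁.f)
    (hr : rk (WV c f₁) ≤ 1) (M : FM K A) (hM : Brick A M) (hMW : InW f₁ M) :
    ∃ N : FM K A, SimW f₁ N ∧ Nonempty (M ≃ₗ[A] N) := by
  obtain ⟨⟨N, φ, hN, hφ⟩, ⟨N', ψ, hN', hψ⟩⟩ := hSIM f₁ M hMW hM.1
  obtain ⟨e⟩ := hONE hK hA hR c f₁ h1 hr N' N hN' hN
  have hne : φ ∘ₗ e.toLinearMap ∘ₗ ψ ≠ 0 := by
    intro h
    have hnt : Nontrivial N' := hN'.2.1
    obtain ⟨y, hy⟩ := exists_ne (0 : N')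
    obtain ⟨x, rfl⟩ := hψ y
    apply hy
    have h2 := LinearMap.congr_fun h x
    simp only [LinearMap.comp_apply, LinearMap.zero_apply, LinearEquiv.coe_coe] at h2
    have h3 : e (ψ x) = 0 := hφ (by rw [h2, map_zero])
    exact (LinearEquiv.map_eq_zero_iff e).1 h3
  have hb := hM.2 _ hne
  have hinj : Function.Injective ψ := by
    have h4 : Function.Injective (⇑(φ ∘ₗ e.toLinearMap) ∘ ⇑ψ) := hb.1
    exact Function.Injective.of_comp h4
  exact ⟨N', hN', ⟨LinearEquiv.ofBijective ψ ⟨hinj, hψ⟩⟩⟩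

theorem BRK_rigid_zero : Rigid (TC.zero : TC K A).f := by
  intro h
  refine ⟨0, 0, ?_⟩
  ext x

theorem BRK_unique (hDICH : S_DICH K A) (hONE : S_ONE K A) (hSIM : S_SIM K A) (hDET : S_DET K A)
    (hLIN1 : S_LIN1) (hK : Infinite K) (hA : FiniteDimensional K A) (hR : HR K A) (c : Coo K A)
    (M M' : FM K A) (hM : Brick A M) (hM' : Brick A M') (hv : c.v M = c.v M')
    (hD : {w | ∃ S : Submodule A M, w = c.v (M.sub S)} =
      {w | ∃ S : Submodule A M', w = c.v (M'.sub S)}) : Nonempty (M ≃ₗ[A] M') := by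
  obtain ⟨f₁, h1, h2, h3⟩ := BRK_descend hDICH hLIN1 hK hA hR c M hM _ TC.zero le_rfl
    BRK_rigid_zero (inW_zero M)
  have h4 : InW f₁ M' := hDET c f₁ M M' h1 hv hD h2
  obtain ⟨N, hN, ⟨e⟩⟩ := BRK_simple hONE hSIM hK hA hR c f₁ h1 h3 M hM h2
  obtain ⟨N', hN', ⟨e'⟩⟩ := BRK_simple hONE hSIM hK hA hR c f₁ h1 h3 M' hM' h4
  obtain ⟨e₀⟩ := hONE hK hA hR c f₁ h1 h3 N N' hN hN'
  exact ⟨(e.trans e₀).trans e'.symm⟩

theorem s_BRK (K : Type v) [Field K] (A : Type u) [Ring A] [Algebra K A] (hDICH : S_DICH K A)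
    (hONE : S_ONE K A) (hSIM : S_SIM K A) (hDET : S_DET K A) (_hFINV : S_FINV K A)
    (hLIN1 : S_LIN1) : S_BRK K A := by
  intro hK hA hR c d
  classical
  let D : FM K A → Set (Fin c.n → ℤ) := fun M => {w | ∃ S : Submodule A M, w = c.v (M.sub S)}
  let 𝒟 : Set (Set (Fin c.n → ℤ)) := {T | ∃ M : FM K A, Brick A M ∧ c.v M = d ∧ D M = T}
  have hfin : 𝒟.Finite := by
    refine ((Set.finite_Icc (0 : Fin c.n → ℤ) d).finite_subsets).subset ?_
    rintro T ⟨M, hM, hd, rfl⟩ w ⟨S, rfl⟩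
    have h1 := v_add c M S
    rw [Set.mem_Icc]
    refine ⟨fun i => v_nonneg c _ i, fun i => ?_⟩
    have h2 := congrFun h1 i
    rw [hd] at h2
    simp only [Pi.add_apply] at h2
    have h3 := v_nonneg c (M.quot S) i
    linarith
  haveI : Nonempty (FM K A) := ⟨FM.zero⟩
  have hex : ∀ T : Set (Fin c.n → ℤ), T ∈ 𝒟 → ∃ M : FM K A, Brick A M ∧ c.v M = d ∧ D M = T :=
    fun T hT => hT
  choose! rep hrep using hex
  refine ⟨hfin.toFinset.toList.map rep, ?_⟩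
  intro M hM hd
  have hmem : D M ∈ 𝒟 := ⟨M, hM, hd, rfl⟩
  refine ⟨rep (D M), ?_, ?_⟩
  · rw [List.mem_map]
    exact ⟨D M, by simpa using hmem, rfl⟩
  · obtain ⟨h1, h2, h3⟩ := hrep (D M) hmem
    exact BRK_unique hDICH hONE hSIM hDET hLIN1 hK hA hR c M (rep (D M)) hM h1
      (hd.trans h2.symm) h3.symm

end Pool.Agent.H51.MF
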