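import Pool.Agent.H51.MF.Base

/-! # LD: Lemma D -/

set_option linter.style.haveILetI false
set_option linter.unusedSectionVars false
set_option autoImplicit false

namespace Pool.Agent.H51.MF

open Module Pool.Agent.H51.T2

universe u v

variable {K : Type v} [Field K] {A : Type u} [Ring A] [Algebra K A]

theorem LD_half (hPO : S_PO K A) (f₀ g g' : TC K A) (Y X : FM K A) (h0 : Rigid f₀.f)
    (hg : Rigid g.f) (hc : Comp f₀ g) (hc' : Comp f₀ g') (hY : HH g.f Y)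
    (himp : ∀ X, Bp f₀ Y X → TT g.f X → TT g'.f X) (hX : Bp f₀ Y X) (z : g'.P →ₗ[A] X) :
    ∃ (m : g'.Q →ₗ[A] X) (k : ℕ) (x : Fin k → (g.P →ₗ[A] X)) (u : Fin k → (g'.P →ₗ[A] g.P))
      (m' : Fin k → (g'.Q →ₗ[A] g.Q)), (∀ i, g.f ∘ₗ u i = m' i ∘ₗ g'.f) ∧
        z = m ∘ₗ g'.f + ∑ i, x i ∘ₗ u i := by
  obtain ⟨X', ι, h1, h2, h3, h4⟩ := hPO g X hg
  refine h2 g' ?_ z
  have ht0 : TT f₀.f f₀.C := EZero.tt h0
  have ht1 : TT f₀.f g.C := EZero.tt hc.1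
  have ht2 : TT g'.f f₀.C := EZero.tt hc'.2
  have ht3 : TT f₀.f X' := h4 f₀ hX.1.1 ht1
  have hB : Bp f₀ Y (X'.quot (tr A f₀.C X')) := by
    refine ⟨⟨tt_quot ht3 _, hh_quot K ht0⟩, ?_⟩
    intro φ
    have h5 : (φ ∘ₗ (tr A f₀.C X').mkQ) ∘ₗ ι = 0 := hX.2 _
    have h6 := h3 Y hY _ h5
    ext x
    exact LinearMap.congr_fun h6 x
  have h5 : TT g'.f (X'.quot (tr A f₀.C X')) := himp _ hB (tt_quot h1 _)
  have h6 : TT g'.f (X'.sub (tr A f₀.C X')) := TT.tr K ht2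
  exact tt_ext h6 h5

theorem s_LD (K : Type v) [Field K] (A : Type u) [Ring A] [Algebra K A] (hNAK : S_NAK K A)
    (hPO : S_PO K A) : S_LD K A := by
  intro f₀ g₁ g₂ Y h0 hg₁ hg₂ hc₁ hc₂ hY hY₁ hY₂ hiff hloc hbij X hX
  by_contra hcon
  obtain ⟨ξ, hξ0, hξ1, hξ2⟩ := hNAK g₁ X hloc hcon
  apply hξ0
  refine LinearMap.ext fun z => ?_
  rw [LinearMap.zero_apply]
  obtain ⟨m, k, x, u, m', hu, hz⟩ := LD_half hPO f₀ g₂ g₁ Y X h0 hg₂ hc₂ hc₁ hY₂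
    (fun X hX h => (hiff X hX).2 h) hX z
  rw [hz, map_add, hξ1, zero_add, map_sum]
  refine Finset.sum_eq_zero fun i _ => ?_
  obtain ⟨m₂, k₂, x₂, w, m₂', hw, hx⟩ := LD_half hPO f₀ g₁ g₂ Y X h0 hg₁ hc₁ hc₂ hY₁
    (fun X hX h => (hiff X hX).1 h) hX (x i)
  have h1 : x i ∘ₗ u i = (m₂ ∘ₗ m' i) ∘ₗ g₁.f + ∑ j, x₂ j ∘ₗ (w j ∘ₗ u i) := by
    have h2 : (∑ j, x₂ j ∘ₗ w j) ∘ₗ u i = ∑ j, (x₂ j ∘ₗ w j) ∘ₗ u i := by
      ext y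
      simp only [LinearMap.comp_apply, LinearMap.sum_apply]
    rw [hx, LinearMap.add_comp, LinearMap.comp_assoc, hu i, h2]
    rfl
  rw [h1, map_add, hξ1, zero_add, map_sum]
  refine Finset.sum_eq_zero fun j _ => ?_
  refine hξ2 (w j ∘ₗ u i) (m₂' j ∘ₗ m' i) ?_ (hbij (u i) (m' i) (w j) (m₂' j) (hu i) (hw j)) _
  rw [← LinearMap.comp_assoc, hw j, LinearMap.comp_assoc, hu i, LinearMap.comp_assoc]

end Pool.Agent.H51.MF
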