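import Pool.Agent.H51.MF.Base

/-! # SM: small deformations -/

set_option linter.style.haveILetI false
set_option linter.unusedSectionVars false
set_option autoImplicit false

namespace Pool.Agent.H51.MF

open Module Pool.Agent.H51.T2

universe u v

theorem SM_bound {K : Type v} [Field K] {A : Type u} [Ring A] [Algebra K A] (c : Coo K A)
    (η : Fin c.n → ℤ) (X : FM K A) (S : Submodule A X) :
    - (∑ i, |η i| * c.v X i) ≤ η ⬝ᵥ c.v (X.quot S) := by
  rw [dotProduct, ← Finset.sum_neg_distrib]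
  refine Finset.sum_le_sum fun i _ => ?_
  have h1 := congrFun (v_add c X S) i
  simp only [Pi.add_apply] at h1
  have h2 := v_nonneg c (X.sub S) i
  have h3 := v_nonneg c (X.quot S) i
  have h4 := neg_abs_le (η i)
  have h5 := abs_nonneg (η i)
  have h6 : 0 ≤ |η i| * c.v (X.sub S) i := mul_nonneg h5 h2
  have h7 : 0 ≤ (η i + |η i|) * c.v (X.quot S) i := mul_nonneg (by linarith) h3
  rw [h1]
  nlinarith

theorem SM_bound_nonneg {K : Type v} [Field K] {A : Type u} [Ring A] [Algebra K A] (c : Coo K A)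
    (η : Fin c.n → ℤ) (X : FM K A) : 0 ≤ ∑ i, |η i| * c.v X i :=
  Finset.sum_nonneg fun i _ => mul_nonneg (abs_nonneg _) (v_nonneg c X i)

theorem s_SM (K : Type v) [Field K] (A : Type u) [Ring A] [Algebra K A] (hTBN : S_TBN K A)
    (hTRC : S_TRC K A) (hNUM : S_NUM K A) : S_SM K A := by
  intro c f₀ g θ η hf₀ hg
  refine ⟨(∑ i, |η i| * c.v (CW f₀ g) i).toNat, ?_⟩
  intro m hm X hX hXθ hXη
  obtain ⟨hCW, hCWtt, hCWpos, -, hTr⟩ := hTRC c f₀ g θ hf₀ hg
  have hmM : (∑ i, |η i| * c.v (CW f₀ g) i) ≤ (m : ℤ) := by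
    have := Int.toNat_of_nonneg (SM_bound_nonneg c η (CW f₀ g))
    omega
  -- the functional on the quotients of `CW`
  have hCWb : TbN c f₀ ((m : ℤ) • θ + η) (CW f₀ g) := by
    intro S hS
    by_cases hST : S = ⊤
    · subst hST
      have : Subsingleton ((CW f₀ g).quot ⊤ : FM K A) := by
        change Subsingleton ((CW f₀ g) ⧸ (⊤ : Submodule A (CW f₀ g)))
        exact Submodule.Quotient.subsingleton_iff.2 rfl
      rw [v_zero c ((CW f₀ g).quot ⊤)]
      simp
    · have h1 := hCWpos S hS hST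
      have h2 := SM_bound c η (CW f₀ g) S
      rw [add_dotProduct, smul_dotProduct, smul_eq_mul]
      have h3 : (0 : ℤ) ≤ m := Int.natCast_nonneg m
      nlinarith
  intro S hS
  obtain ⟨T, hT1, hT2, hT3, hT4, k, σ, hσ⟩ := hTr (X.quot S) hS
  -- the generated part
  have h1 : TbN c f₀ ((m : ℤ) • θ + η) ((X.quot S).sub T) :=
    (hTBN c f₀ _ hf₀).2.2 (CW f₀ g) ((X.quot S).sub T) k σ hCW hT1 hσ hCWb
  have h2 : 0 ≤ ((m : ℤ) • θ + η) ⬝ᵥ c.v ((X.quot S).sub T) := by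
    have e : (((X.quot S).sub T).quot ⊥ : FM K A) ≃ₗ[A] ((X.quot S).sub T) :=
      Submodule.quotEquivOfEqBot ⊥ rfl
    have := h1 ⊥ (inW_iso e.symm hT1)
    rwa [v_iso c e] at this
  -- the other part
  have e2 := quotQuot X S T
  have h3 : TT g.f X := (hNUM c f₀ g θ X hf₀ hg hX).1.2 hXθ
  have h4 : TT g.f ((X.quot S).quot T) := tt_quot (tt_quot h3 S) T
  have h5 : InW (f₀.add g) ((X.quot S).quot T) := inW_addTC.2 ⟨hT2, h4, hT4⟩
  have h6 : 0 ≤ η ⬝ᵥ c.v ((X.quot S).quot T) := by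
    have := hXη (T.comap S.mkQ) (inW_iso e2 h5)
    rwa [← v_iso c e2] at this
  have h7 : θ ⬝ᵥ c.v ((X.quot S).quot T) = 0 := by
    rw [← hg.cl _ hT2]
    exact inW_cl (g := g) ⟨h4, hT4⟩
  have h8 : 0 ≤ ((m : ℤ) • θ + η) ⬝ᵥ c.v ((X.quot S).quot T) := by
    rw [add_dotProduct, smul_dotProduct, smul_eq_mul, h7]
    simpa using h6
  rw [v_add c (X.quot S) T, dotProduct_add]
  exact add_nonneg h2 h8

end Pool.Agent.H51.MF
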