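import Pool.Agent.H7.MF.Stmts

/-!
# Board `mf18`, row NUG: the hypotheses of BGE for any `th`, `X` (from the row NUJ of `kc15`, helper17)
-/

set_option autoImplicit false

open Finset

namespace Pool.MF7

open Pool.Agent.H23.KT Pool.Agent.H46.KW Pool.KQ Pool.GT7 Pool.GU7 Pool.GV7

theorem nug_pow (r : ℝ) (hr : 0 ≤ r) (w : ℕ) : ∃ K : ℝ, 0 ≤ K ∧ ∀ a : ℝ, 1 ≤ a →
    (a + r) ^ (w + 1) ≤ a ^ (w + 1) + K * a ^ w := by
  induction w with
  | zero => exact ⟨r, hr, fun a _ => by simp⟩
  | succ w ih =>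
    obtain ⟨K, hK, h⟩ := ih
    refine ⟨r + K + r * K, by positivity, fun a ha => ?_⟩
    have h1 := mul_le_mul_of_nonneg_right (h a ha) (by linarith : (0 : ℝ) ≤ a + r)
    have h2 : r * K * a ^ w * 1 ≤ r * K * a ^ w * a :=
      mul_le_mul_of_nonneg_left ha (by positivity)
    calc (a + r) ^ (w + 1 + 1) = (a + r) ^ (w + 1) * (a + r) := pow_succ _ _
      _ ≤ (a ^ (w + 1) + K * a ^ w) * (a + r) := h1
      _ = a ^ (w + 1 + 1) + r * a ^ (w + 1) + K * a ^ w * a + r * K * a ^ w * 1 := by ring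
      _ ≤ a ^ (w + 1 + 1) + r * a ^ (w + 1) + K * a ^ w * a + r * K * a ^ w * a := by linarith
      _ = a ^ (w + 1 + 1) + (r + K + r * K) * a ^ (w + 1) := by ring

theorem nug_geom (x : ℝ) (n : ℕ) : (1 - x) * ∑ k ∈ range n, x ^ (k + 1) = x * (1 - x ^ n) := by
  have h1 : ∑ k ∈ range n, x ^ (k + 1) = x * ∑ k ∈ range n, x ^ k := by
    rw [mul_sum]
    exact sum_congr rfl fun k _ => by ring
  have h2 := geom_sum_mul x n
  rw [h1]
  linear_combination (-x) * h2

theorem nug_thm : NUGStmt := by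
  intro p w r th X hth0 hth1 hX0 hX1 hXa hXb
  have hp0 : (0 : ℝ) ≤ p := Nat.cast_nonneg p
  have hr0 : (0 : ℝ) ≤ r := Nat.cast_nonneg r
  have hw0 : (0 : ℝ) ≤ w := Nat.cast_nonneg w
  set b : ℝ := (p : ℝ) + 3 with hb
  have hb0 : 0 < b := by
    rw [hb]
    positivity
  set g : ℝ := th + (1 + 1 / (7 * b ^ 2)) / ((p : ℝ) + 2) with hg
  have hg0 : 0 ≤ g := by
    rw [hg]
    positivity
  refine ⟨g, hg0, ?_, ?_⟩
  · refine ⟨56 * (p + 3) ^ 2 * r, fun a ha => ?_⟩
    have ha' : 56 * b ^ 2 * (r : ℝ) ≤ a := by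
      have : ((56 * (p + 3) ^ 2 * r : ℕ) : ℝ) ≤ a := by exact_mod_cast ha
      push_cast at this
      exact this
    have e1 : (r : ℝ) ≤ 1 / (56 * b ^ 2) * a := by
      rw [one_div_mul_eq_div, le_div_iff₀ (by positivity)]
      linarith
    have e2 : ((p : ℝ) + 2) * (g * a) = ((p : ℝ) + 2) * th * a + (1 + 1 / (7 * b ^ 2)) * a := by
      rw [hg]
      field_simp
    have e3 : 1 / (7 * b ^ 2) * (a : ℝ) = 1 / (8 * b ^ 2) * a + 1 / (56 * b ^ 2) * a := by
      field_simp
      ring
    rw [e2]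
    linarith
  · obtain ⟨K', hK', hpow⟩ := nug_pow (r : ℝ) hr0 w
    refine ⟨r * ((w : ℝ) + 1) + (b + r) * K' + 1, by positivity, 1, ?_⟩
    intro a ha n hn
    have haR : (1 : ℝ) ≤ a := by exact_mod_cast ha
    have ha0 : (0 : ℝ) ≤ a := by linarith
    have hA0 : (0 : ℝ) ≤ (a : ℝ) ^ (w + 1) := by positivity
    have hD : (((p + 3) * a + r : ℕ) : ℝ) = b * a + r := by
      push_cast
      rw [hb]
    rw [hD]
    set y : ℝ := b * a + r - n with hy
    have hy0 : 0 ≤ y := by
      have : (n : ℝ) ≤ (((p + 3) * a + r : ℕ) : ℝ) := by exact_mod_cast hn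
      rw [hD] at this
      rw [hy]
      linarith
    have hn0 : (0 : ℝ) ≤ n := Nat.cast_nonneg n
    have hthp : th ^ (w + 1) ≤ 1 := pow_le_one₀ hth0 hth1
    have hthp0 : 0 ≤ th ^ (w + 1) := pow_nonneg hth0 _
    by_cases h1 : y ≤ X * (b * a)
    · right
      have e1 : y / b ≤ X * a := by
        rw [div_le_iff₀ hb0]
        linarith
      have e2 : (y / b) ^ (w + 1) ≤ (X * a) ^ (w + 1) :=
        pow_le_pow_left₀ (by positivity) e1 _
      have e3 : g ^ (w + 1) * (a : ℝ) ^ (w + 1) ≤ (1 - X ^ (w + 1)) * (a : ℝ) ^ (w + 1) :=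
        mul_le_mul_of_nonneg_right hXb hA0
      rw [mul_pow] at e2
      rw [mul_pow]
      linarith
    · left
      have h1' := not_le.1 h1
      have hr1 : (r : ℝ) * ((w : ℝ) + 1) * (th * a) ^ (w + 1) ≤
          r * ((w : ℝ) + 1) * (a : ℝ) ^ (w + 1) := by
        refine mul_le_mul_of_nonneg_left ?_ (by positivity)
        rw [mul_pow]
        have := mul_le_mul_of_nonneg_right hthp hA0
        linarith
      by_cases h2 : y ≤ b * a
      · have hba : 0 < b * a := by positivity
        set x : ℝ := y / (b * a) with hx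
        have hyx : y = x * (b * a) := by
          rw [hx]
          field_simp
        have hx0 : 0 ≤ x := by
          rw [hx]
          positivity
        have hxX : X ≤ x := by
          rw [hx, le_div_iff₀ hba]
          exact h1'.le
        have hx1 : x ≤ 1 := by
          rw [hx, div_le_one hba]
          exact h2
        have hnx : (n : ℝ) = b * a * (1 - x) + r := by
          have : y = b * a + r - n := hy
          linarith
        have hyb : y / b = x * a := by
          rw [hyx]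
          field_simp
        have e1 : ((w : ℝ) + 1) * th ^ (w + 1) ≤ ∑ k ∈ range (w + 1), x ^ (k + 1) :=
          hXa.trans (sum_le_sum fun k _ => pow_le_pow_left₀ hX0.le hxX _)
        have e2 : (1 - x) * (((w : ℝ) + 1) * th ^ (w + 1)) ≤ x * (1 - x ^ (w + 1)) := by
          rw [← nug_geom]
          exact mul_le_mul_of_nonneg_left e1 (by linarith)
        have e3 : b * a * (a : ℝ) ^ (w + 1) * ((1 - x) * (((w : ℝ) + 1) * th ^ (w + 1))) ≤
            b * a * (a : ℝ) ^ (w + 1) * (x * (1 - x ^ (w + 1))) :=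
          mul_le_mul_of_nonneg_left e2 (by positivity)
        have e4 : (n : ℝ) * ((w : ℝ) + 1) * (th * a) ^ (w + 1) =
            b * a * (a : ℝ) ^ (w + 1) * ((1 - x) * (((w : ℝ) + 1) * th ^ (w + 1))) +
              r * ((w : ℝ) + 1) * (th * a) ^ (w + 1) := by
          rw [hnx, mul_pow]
          ring
        have e5 : y * ((a : ℝ) ^ (w + 1) - (y / b) ^ (w + 1)) =
            b * a * (a : ℝ) ^ (w + 1) * (x * (1 - x ^ (w + 1))) := by
          rw [hyb, mul_pow, hyx]
          ring
        have e6 : 0 ≤ ((b + r) * K' + 1) * (a : ℝ) ^ (w + 1) := by positivity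
        rw [e4, e5]
        linarith
      · have h2' := not_le.1 h2
        have hnr : (n : ℝ) ≤ r := by
          have : y = b * a + r - n := hy
          linarith
        have e1 : (n : ℝ) * ((w : ℝ) + 1) * (th * a) ^ (w + 1) ≤
            r * ((w : ℝ) + 1) * (th * a) ^ (w + 1) := by
          refine mul_le_mul_of_nonneg_right ?_ (by positivity)
          exact mul_le_mul_of_nonneg_right hnr (by positivity)
        have hyD : y ≤ b * a + r := by
          have : y = b * a + r - n := hy
          linarith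
        have hb1 : 1 ≤ b := by
          rw [hb]
          linarith
        have e2 : y / b ≤ a + r := by
          rw [div_le_iff₀ hb0]
          nlinarith
        have e3 : (y / b) ^ (w + 1) ≤ (a : ℝ) ^ (w + 1) + K' * (a : ℝ) ^ w :=
          (pow_le_pow_left₀ (by positivity) e2 _).trans (hpow a haR)
        have e4 : y * ((y / b) ^ (w + 1) - (a : ℝ) ^ (w + 1)) ≤ y * (K' * (a : ℝ) ^ w) :=
          mul_le_mul_of_nonneg_left (by linarith) hy0
        have e5 : y * (K' * (a : ℝ) ^ w) ≤ ((b + r) * a) * (K' * (a : ℝ) ^ w) := by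
          refine mul_le_mul_of_nonneg_right ?_ (by positivity)
          have : (r : ℝ) * 1 ≤ r * a := mul_le_mul_of_nonneg_left haR hr0
          linarith
        have e6 : ((b + r) * a) * (K' * (a : ℝ) ^ w) = (b + r) * K' * (a : ℝ) ^ (w + 1) := by
          ring
        linarith

end Pool.MF7
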